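import Pool.Agent.W186.AI.Spec

/-!
Project AI (helper186): the values of the model solution contain an open set.
-/

set_option autoImplicit false

namespace Pool.Agent.W736.AI.OPN

open Complex Filter Topology Metric Set Pool.Agent.W186.AI

noncomputable def om {N : ℕ} (p : Fin N → Nat.Primes) (v : Fin N → ℂ) (q : Nat.Primes) : ℂ :=
  open Classical in ∑ j, if p j = q then v j else 0

theorem om_self {N : ℕ} (p : Fin N → Nat.Primes) (hp : Function.Injective p) (v : Fin N → ℂ)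
    (j : Fin N) : om p v (p j) = v j := by
  unfold om
  rw [Finset.sum_eq_single j]
  · rw [if_pos rfl]
  · intro i _ hi
    rw [if_neg (fun h => hi (hp h))]
  · intro h
    exact absurd (Finset.mem_univ _) h

theorem om_zero {N : ℕ} (p : Fin N → Nat.Primes) (v : Fin N → ℂ) (q : Nat.Primes)
    (h : ∀ j, p j ≠ q) : om p v q = 0 := by
  unfold om
  exact Finset.sum_eq_zero fun j _ => if_neg (h j)

theorem om_le {N : ℕ} (p : Fin N → Nat.Primes) (hp : Function.Injective p) (v : Fin N → ℂ)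
    (hv : ∀ j, ‖v j‖ ≤ 1) (q : Nat.Primes) : ‖om p v q‖ ≤ 1 := by
  by_cases h : ∃ j, p j = q
  · obtain ⟨j, rfl⟩ := h
    rw [om_self p hp]
    exact hv j
  · push Not at h
    rw [om_zero p v q h, norm_zero]
    exact zero_le_one

noncomputable def c1 (σ : ℝ) (q : Nat.Primes) (t : ℂ) : ℂ :=
  ((q : ℕ) : ℂ) ^ (-((σ : ℂ) + I * t))

noncomputable def c2 (σ : ℝ) (q : Nat.Primes) (t : ℂ) : ℂ :=
  ((q : ℕ) : ℂ) ^ (-((σ : ℂ) - I * t))

theorem q_ne (q : Nat.Primes) : ((q : ℕ) : ℂ) ≠ 0 := by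
  exact_mod_cast q.2.ne_zero

theorem c1_eq (σ : ℝ) (q : Nat.Primes) (t : ℂ) :
    c1 σ q t = cexp (log ((q : ℕ) : ℂ) * (-((σ : ℂ) + I * t))) :=
  cpow_def_of_ne_zero (q_ne q) _

theorem c2_eq (σ : ℝ) (q : Nat.Primes) (t : ℂ) :
    c2 σ q t = cexp (log ((q : ℕ) : ℂ) * (-((σ : ℂ) - I * t))) :=
  cpow_def_of_ne_zero (q_ne q) _

theorem an1 (σ : ℝ) (q : Nat.Primes) (t : ℂ) : AnalyticAt ℂ (c1 σ q) t := by
  have e : c1 σ q = fun t => cexp (log ((q : ℕ) : ℂ) * (-((σ : ℂ) + I * t))) :=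
    funext (c1_eq σ q)
  rw [e]
  fun_prop

theorem an2 (σ : ℝ) (q : Nat.Primes) (t : ℂ) : AnalyticAt ℂ (c2 σ q) t := by
  have e : c2 σ q = fun t => cexp (log ((q : ℕ) : ℂ) * (-((σ : ℂ) - I * t))) :=
    funext (c2_eq σ q)
  rw [e]
  fun_prop

theorem c21 (σ y : ℝ) (q : Nat.Primes) :
    (c2 σ q (y : ℂ) - c1 σ q (y : ℂ)) / (2 * I) =
      ((Real.exp (-(σ * Real.log (q : ℕ))) : ℝ) : ℂ) *
        ((Real.sin (y * Real.log (q : ℕ)) : ℝ) : ℂ) := by
  rw [c1_eq, c2_eq]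
  have hl : log ((q : ℕ) : ℂ) = ((Real.log ((q : ℕ) : ℝ) : ℝ) : ℂ) := by
    rw [Complex.ofReal_log (by positivity)]
    simp
  rw [hl]
  have h1 : ((Real.log ((q : ℕ) : ℝ) : ℝ) : ℂ) * (-((σ : ℂ) - I * (y : ℂ))) =
      ((-(σ * Real.log (q : ℕ)) : ℝ) : ℂ) + ((y * Real.log (q : ℕ) : ℝ) : ℂ) * I := by
    push_cast; ring
  have h2 : ((Real.log ((q : ℕ) : ℝ) : ℝ) : ℂ) * (-((σ : ℂ) + I * (y : ℂ))) =
      ((-(σ * Real.log (q : ℕ)) : ℝ) : ℂ) + -((y * Real.log (q : ℕ) : ℝ) : ℂ) * I := by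
    push_cast; ring
  rw [h1, h2, Complex.exp_add, Complex.exp_add, Complex.ofReal_exp, Complex.ofReal_sin,
    Complex.sin]
  have hI2 : I ^ 2 = -1 := I_sq
  generalize cexp (((-(σ * Real.log (q : ℕ)) : ℝ)) : ℂ) = A
  generalize cexp (((y * Real.log (q : ℕ) : ℝ) : ℂ) * I) = B
  generalize cexp (-((y * Real.log (q : ℕ) : ℝ) : ℂ) * I) = B'
  rw [div_eq_iff (by simp)]
  linear_combination (-(A * (B' - B))) * hI2

noncomputable def Sf {N : ℕ} (σ : ℝ) (p : Fin N → Nat.Primes) (v : Fin N → ℂ) (t : ℂ) : ℂ :=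
  (∑ j, (log (1 - v j * c1 σ (p j) t) - log (1 - v j * c2 σ (p j) t))) / (2 * I)

theorem S_om {N : ℕ} (σ : ℝ) (p : Fin N → Nat.Primes) (hp : Function.Injective p)
    (v : Fin N → ℂ) (t : ℂ) : S σ (om p v) t = Sf σ p v t := by
  unfold S Sf
  congr 1
  rw [tsum_eq_sum (s := Finset.univ.map ⟨p, hp⟩)]
  · rw [Finset.sum_map]
    refine Finset.sum_congr rfl fun j _ => ?_
    simp only [Function.Embedding.coeFn_mk, om_self p hp]
    rfl
  · intro q hq
    have h : ∀ j, p j ≠ q := by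
      intro j hj
      apply hq
      rw [Finset.mem_map]
      exact ⟨j, Finset.mem_univ _, hj⟩
    rw [om_zero p v q h]
    simp

noncomputable def Ph {m N : ℕ} (σ w : ℝ) (y : Fin m → ℝ) (p : Fin N → Nat.Primes)
    (z : (Fin m → ℂ) × (Fin N → ℂ)) : Fin m → ℂ :=
  fun i => (w : ℂ) * ((y i : ℂ) + Sf σ p z.2 (z.1 i)) - z.1 i

theorem an_Ph {m N : ℕ} (σ w : ℝ) (y : Fin m → ℝ) (p : Fin N → Nat.Primes) (z0 : Fin m → ℂ) :
    AnalyticAt ℂ (Ph σ w y p) (z0, 0) := by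
  unfold Ph
  apply AnalyticAt.pi
  intro i
  have hz1 : AnalyticAt ℂ (fun z : (Fin m → ℂ) × (Fin N → ℂ) => z.1 i) (z0, 0) :=
    ((ContinuousLinearMap.proj i : (Fin m → ℂ) →L[ℂ] ℂ).comp
      (ContinuousLinearMap.fst ℂ (Fin m → ℂ) (Fin N → ℂ))).analyticAt _
  have hz2 : ∀ j, AnalyticAt ℂ (fun z : (Fin m → ℂ) × (Fin N → ℂ) => z.2 j) (z0, 0) := fun j =>
    ((ContinuousLinearMap.proj j : (Fin N → ℂ) →L[ℂ] ℂ).comp
      (ContinuousLinearMap.snd ℂ (Fin m → ℂ) (Fin N → ℂ))).analyticAt _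
  have hS : AnalyticAt ℂ (fun z : (Fin m → ℂ) × (Fin N → ℂ) => Sf σ p z.2 (z.1 i)) (z0, 0) := by
    unfold Sf
    refine AnalyticAt.fun_div ?_ analyticAt_const (by simp)
    apply Finset.analyticAt_fun_sum
    intro j _
    refine AnalyticAt.fun_sub ?_ ?_
    · apply AnalyticAt.clog
      · refine analyticAt_const.fun_sub ((hz2 j).fun_mul ?_)
        exact (an1 σ (p j) _).comp hz1
      · simp
    · apply AnalyticAt.clog
      · refine analyticAt_const.fun_sub ((hz2 j).fun_mul ?_)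
        exact (an2 σ (p j) _).comp hz1
      · simp
  exact (analyticAt_const.fun_mul (analyticAt_const.fun_add hS)).fun_sub hz1

theorem der_log (a : ℂ) (b : ℂ) :
    HasDerivAt (fun s : ℂ => log (1 - s * b * a)) (-(b * a)) 0 := by
  have h1 : HasDerivAt (fun s : ℂ => 1 - s * b * a) (-(b * a)) 0 := by
    have h := (((hasDerivAt_id (0 : ℂ)).mul_const b).mul_const a).const_sub 1
    simpa using h
  have h2 := h1.clog (by simp)
  simpa using h2

theorem der_Ph {m N : ℕ} (σ w : ℝ) (y : Fin m → ℝ) (p : Fin N → Nat.Primes) (z0 : Fin m → ℂ)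
    (dv : Fin N → ℂ) :
    HasDerivAt (fun s : ℂ => Ph σ w y p (z0, s • dv))
      (fun i => (w : ℂ) * ∑ j, dv j * ((c2 σ (p j) (z0 i) - c1 σ (p j) (z0 i)) / (2 * I))) 0 := by
  rw [hasDerivAt_pi]
  intro i
  have h1 : HasDerivAt (fun s : ℂ => ∑ j, (log (1 - s * dv j * c1 σ (p j) (z0 i)) -
      log (1 - s * dv j * c2 σ (p j) (z0 i))))
      (∑ j, (-(dv j * c1 σ (p j) (z0 i)) - -(dv j * c2 σ (p j) (z0 i)))) 0 := by
    apply HasDerivAt.fun_sum
    intro j _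
    exact (der_log _ _).sub (der_log _ _)
  have h2 := (((h1.div_const (2 * I)).const_add (y i : ℂ)).const_mul (w : ℂ)).sub_const (z0 i)
  have e : (w : ℂ) * ∑ j, dv j * ((c2 σ (p j) (z0 i) - c1 σ (p j) (z0 i)) / (2 * I)) =
      (w : ℂ) * ((∑ j, (-(dv j * c1 σ (p j) (z0 i)) - -(dv j * c2 σ (p j) (z0 i)))) / (2 * I)) := by
    rw [Finset.sum_div]
    congr 1
    refine Finset.sum_congr rfl fun j _ => ?_
    ring
  rw [e]
  exact h2

theorem poly_zero {m : ℕ} (P : MvPolynomial (Fin m) ℂ) (z0 : Fin m → ℂ)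
    (h : ∀ᶠ z in 𝓝 z0, MvPolynomial.eval z P = 0) : P = 0 := by
  obtain ⟨ε, hε, hb⟩ := Metric.eventually_nhds_iff_ball.1 h
  apply MvPolynomial.funext_set (fun i => ball (z0 i) (ε / 2))
  · intro i
    exact infinite_of_mem_nhds (z0 i) (ball_mem_nhds _ (by linarith))
  · intro x hx
    rw [map_zero]
    apply hb
    rw [mem_ball, dist_pi_lt_iff hε]
    intro i
    have := hx i (mem_univ i)
    rw [mem_ball] at this
    linarith

theorem surj_A {m N : ℕ} (M : Fin m → Fin N → ℂ)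
    (hM : ∀ c : Fin m → ℂ, (∀ j, ∑ i, c i * M i j = 0) → c = 0) (b : Fin m → ℂ) :
    ∃ dv : Fin N → ℂ, (fun i => ∑ j, dv j * M i j) = b := by
  let T : (Fin N → ℂ) →ₗ[ℂ] (Fin m → ℂ) :=
    { toFun := fun dv i => ∑ j, dv j * M i j
      map_add' := by
        intro a b; funext i
        simp only [Pi.add_apply, add_mul, Finset.sum_add_distrib]
      map_smul' := by
        intro a b; funext i
        simp only [Pi.smul_apply, smul_eq_mul, RingHom.id_apply, Finset.mul_sum, mul_assoc] }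
  have hT : LinearMap.range T = ⊤ := by
    by_contra hne
    obtain ⟨f, hf, hle⟩ := Submodule.exists_le_ker_of_lt_top _ (lt_top_iff_ne_top.2 hne)
    apply hf
    have h0 : (fun i => f (Pi.single i 1)) = 0 := by
      apply hM
      intro j
      have h1 : T (Pi.single j 1) ∈ LinearMap.ker f := hle ⟨_, rfl⟩
      rw [LinearMap.mem_ker] at h1
      have h2 : T (Pi.single j 1) = ∑ i, M i j • (Pi.single i 1 : Fin m → ℂ) := by
        funext i
        rw [Finset.sum_apply]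
        simp only [T, LinearMap.coe_mk, AddHom.coe_mk, Pi.single_apply, Pi.smul_apply, smul_eq_mul]
        simp
      rw [h2, map_sum] at h1
      rw [← h1]
      refine Finset.sum_congr rfl fun i _ => ?_
      rw [map_smul, smul_eq_mul, mul_comm]
    apply LinearMap.pi_ext'
    intro i
    apply LinearMap.ext_ring
    exact congrFun h0 i
  have hb : b ∈ LinearMap.range T := by rw [hT]; trivial
  obtain ⟨dv, hdv⟩ := hb
  exact ⟨dv, hdv⟩

theorem main (ht : S_TTH) (hT : S_TRG) : S_OPN := by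
  intro m n σ r P hn hσ hr hyr hP
  obtain ⟨w, hw0, hwr, N, p, hp, hnd⟩ := hT m n hn r hr
  have hyy : ∀ i, 0 ≤ yy (n i) := fun i => by unfold yy; positivity
  obtain ⟨y, hy⟩ : ∃ y : Fin m → ℝ, y = fun i => yy (n i) := ⟨_, rfl⟩
  obtain ⟨z0, hz0⟩ : ∃ z0 : Fin m → ℂ, z0 = fun i => ((w * y i : ℝ) : ℂ) := ⟨_, rfl⟩
  have hz0n : ∀ i, ‖z0 i‖ < 1 := by
    intro i
    rw [hz0, Complex.norm_real, Real.norm_eq_abs, abs_of_nonneg (by rw [hy]; exact mul_nonneg hw0.le (hyy i))]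
    have h1 := hyr i
    have h2 := hyy i
    rw [hy]
    simp only
    nlinarith
  -- the derivative
  have hΨ : HasStrictFDerivAt (fun z : (Fin m → ℂ) × (Fin N → ℂ) => (z.1, Ph σ w y p z))
      ((ContinuousLinearMap.fst ℂ (Fin m → ℂ) (Fin N → ℂ)).prod
        (fderiv ℂ (Ph σ w y p) (z0, 0))) (z0, 0) :=
    (ContinuousLinearMap.fst ℂ (Fin m → ℂ) (Fin N → ℂ)).hasStrictFDerivAt.prodMk
      (an_Ph σ w y p z0).hasStrictFDerivAt
  have hL : ∀ dv : Fin N → ℂ, fderiv ℂ (Ph σ w y p) (z0, 0) (0, dv) =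
      (fun i => (w : ℂ) * ∑ j, dv j * ((c2 σ (p j) (z0 i) - c1 σ (p j) (z0 i)) / (2 * I))) := by
    intro dv
    have h1 : HasDerivAt (fun s : ℂ => ((z0, s • dv) : (Fin m → ℂ) × (Fin N → ℂ))) (0, dv) 0 := by
      have ha : HasDerivAt (fun s : ℂ => s • dv) dv 0 := by
        simpa using (hasDerivAt_id (0 : ℂ)).smul_const dv
      exact (hasDerivAt_const (0 : ℂ) z0).prodMk ha
    have h2 : HasFDerivAt (Ph σ w y p) (fderiv ℂ (Ph σ w y p) (z0, 0))
        ((fun s : ℂ => ((z0, s • dv) : (Fin m → ℂ) × (Fin N → ℂ))) 0) := by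
      simp only [zero_smul]
      exact (an_Ph σ w y p z0).hasStrictFDerivAt.hasFDerivAt
    have h3 := h2.comp_hasDerivAt (0 : ℂ) h1
    exact h3.unique (der_Ph σ w y p z0 dv)
  have hsurj : LinearMap.range (((ContinuousLinearMap.fst ℂ (Fin m → ℂ) (Fin N → ℂ)).prod
        (fderiv ℂ (Ph σ w y p) (z0, 0)) : ((Fin m → ℂ) × (Fin N → ℂ)) →L[ℂ] ((Fin m → ℂ) × (Fin m → ℂ))) :
        ((Fin m → ℂ) × (Fin N → ℂ)) →ₗ[ℂ] ((Fin m → ℂ) × (Fin m → ℂ))) = ⊤ := by
    rw [LinearMap.range_eq_top]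
    rintro ⟨a, b⟩
    obtain ⟨dv, hdv⟩ := surj_A
      (fun i j => (w : ℂ) * ((c2 σ (p j) (z0 i) - c1 σ (p j) (z0 i)) / (2 * I))) (by
        intro c hc
        apply hnd c
        intro j
        have h1 := hc j
        have h2 : ∀ i, c i * ((w : ℂ) * ((c2 σ (p j) (z0 i) - c1 σ (p j) (z0 i)) / (2 * I))) =
            ((w : ℂ) * ((Real.exp (-(σ * Real.log ((p j : Nat.Primes) : ℕ))) : ℝ) : ℂ)) *
            (c i * ((Real.sin (w * yy (n i) * Real.log (p j)) : ℝ) : ℂ)) := by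
          intro i
          rw [hz0]
          simp only
          rw [c21, hy]
          ring
        rw [Finset.sum_congr rfl fun i _ => h2 i, ← Finset.mul_sum] at h1
        rcases mul_eq_zero.1 h1 with h | h
        · exfalso
          rcases mul_eq_zero.1 h with h | h
          · exact hw0.ne' (by exact_mod_cast h)
          · exact (Real.exp_pos _).ne' (by exact_mod_cast h)
        · exact h) (b - fderiv ℂ (Ph σ w y p) (z0, 0) (a, 0))
    refine ⟨(a, dv), ?_⟩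
    have e1 : ((a, dv) : (Fin m → ℂ) × (Fin N → ℂ)) = (a, 0) + (0, dv) := by simp
    have e2 : fderiv ℂ (Ph σ w y p) (z0, 0) (a, dv) = b := by
      rw [e1, map_add, hL dv]
      have e3 : (fun i => (w : ℂ) * ∑ j, dv j * ((c2 σ (p j) (z0 i) - c1 σ (p j) (z0 i)) / (2 * I))) =
          b - fderiv ℂ (Ph σ w y p) (z0, 0) (a, 0) := by
        rw [← hdv]
        funext i
        rw [Finset.mul_sum]
        exact Finset.sum_congr rfl fun j _ => by ring
      rw [e3]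
      abel
    exact Prod.ext rfl e2
  have hmap := hΨ.map_nhds_eq_of_surj hsurj
  have hPh0 : Ph σ w y p (z0, 0) = 0 := by
    funext i
    unfold Ph Sf
    simp [hz0]
  have hV : {z : (Fin m → ℂ) × (Fin N → ℂ) | (∀ i, ‖z.1 i‖ < 1) ∧ ∀ j, ‖z.2 j‖ < 1} ∈
      𝓝 ((z0, 0) : (Fin m → ℂ) × (Fin N → ℂ)) := by
    apply IsOpen.mem_nhds
    · have ha : IsOpen {z : (Fin m → ℂ) × (Fin N → ℂ) | ∀ i, ‖z.1 i‖ < 1} := by
        rw [ofPred_forall]
        exact isOpen_iInter_of_finite fun i => isOpen_lt (by fun_prop) continuous_const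
      have hb : IsOpen {z : (Fin m → ℂ) × (Fin N → ℂ) | ∀ j, ‖z.2 j‖ < 1} := by
        rw [ofPred_forall]
        exact isOpen_iInter_of_finite fun i => isOpen_lt (by fun_prop) continuous_const
      exact ha.inter hb
    · exact ⟨hz0n, fun j => by simp⟩
  have hI := image_mem_map (m := fun z : (Fin m → ℂ) × (Fin N → ℂ) => (z.1, Ph σ w y p z)) hV
  rw [hmap, hPh0] at hI
  apply poly_zero P z0
  have hcont : Tendsto (fun z : Fin m → ℂ => ((z, 0) : (Fin m → ℂ) × (Fin m → ℂ))) (𝓝 z0)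
      (𝓝 (z0, 0)) := (Continuous.prodMk_left (0 : Fin m → ℂ)).tendsto z0
  filter_upwards [hcont hI] with z hz
  obtain ⟨⟨z', v⟩, ⟨hz1, hv1⟩, hzv⟩ := hz
  have hzz : z' = z := congrArg Prod.fst hzv
  subst hzz
  have hPhz : Ph σ w y p (z', v) = 0 := congrArg Prod.snd hzv
  have hω : ∀ q, ‖om p v q‖ ≤ 1 := om_le p hp v (fun j => (hv1 j).le)
  have hwb : (w : ℂ) ∈ ball (0 : ℂ) r := by
    rw [mem_ball_zero_iff, Complex.norm_real, Real.norm_eq_abs, abs_of_pos hw0]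
    exact hwr
  rw [← hP (om p v) hω (w : ℂ) hwb]
  congr 1
  congr 1
  funext i
  apply ((ht σ (yy (n i)) r hσ (hyy i) hr (hyr i)).1 (om p v) hω (w : ℂ) hwb).2.2 (z' i) (hz1 i)
  have h1 := congrFun hPhz i
  unfold Ph at h1
  rw [S_om σ p hp]
  simp only [Pi.zero_apply, hy] at h1
  exact (sub_eq_zero.1 h1).symm

end Pool.Agent.W736.AI.OPN
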